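import Pool.Agent.H343.QF.StL

set_option autoImplicit false

/-! # MP_9a852a_al, task L5 of helper343: finitely generated models of the axioms are standard -/

namespace Pool.Agent.H722.QF

open Pool.Agent.H343.QF

section

variable {B : ℕ} {K : Type} [Group K] {b r : K} {L : K → K → Prop}

theorem nm_comm {x : K} (hx : NmR B b r x) : CmR r x := by
  obtain ⟨z, hz⟩ := hx
  exact hz.1

theorem cm_pow (e : ℤ) : CmR r (r ^ e) := by
  unfold CmR
  rw [← zpow_add_one, ← zpow_one_add, add_comm]

theorem nm_pow (h : AxR B b r L) {x : K} (hx : NmR B b r x) (k : ℕ) : NmR B b r (x ^ k) := by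
  induction k with
  | zero => rw [pow_zero]; exact h.n1
  | succ k ih => rw [pow_succ]; exact h.nmul _ _ ih hx

theorem inj_nat (h : AxR B b r L) (k : ℕ) (hk : r ^ (k + 1) = 1) : False := by
  apply h.r1
  apply h.pos _ h.nr
  have e : r⁻¹ = r ^ k := by
    rw [pow_succ] at hk
    exact (eq_inv_of_mul_eq_one_left hk).symm
  rw [e]
  exact nm_pow h h.nr k

theorem inj_int (h : AxR B b r L) (e : ℤ) (he : r ^ e = 1) : e = 0 := by
  by_contra hne
  rcases lt_or_gt_of_ne hne with h1 | h1
  · obtain ⟨n, hn⟩ := Int.exists_eq_neg_ofNat (le_of_lt h1)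
    obtain ⟨k, rfl⟩ : ∃ k, n = k + 1 := Nat.exists_eq_succ_of_ne_zero (by rintro rfl; simp at hn; omega)
    rw [hn, zpow_neg, inv_eq_one, zpow_natCast] at he
    exact inj_nat h k he
  · obtain ⟨n, hn⟩ := Int.eq_ofNat_of_zero_le (le_of_lt h1)
    obtain ⟨k, rfl⟩ : ∃ k, n = k + 1 := Nat.exists_eq_succ_of_ne_zero (by rintro rfl; simp at hn; omega)
    rw [hn, zpow_natCast] at he
    exact inj_nat h k he

/-- an element of `N` which is not a power of `r` is above all powers of `r` -/
theorem above (h : AxR B b r L) {x : K} (hx : NmR B b r x) (hn : ¬ ∃ e : ℤ, x = r ^ e) (k : ℕ) :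
    LeR B b r (r ^ k) x := by
  have key : NmR B b r (x * (r ^ k)⁻¹) := by
    induction k with
    | zero => rw [pow_zero, inv_one, mul_one]; exact hx
    | succ k ih =>
      rcases h.disc _ ih with h1 | h1
      · exfalso
        apply hn
        refine ⟨k, ?_⟩
        rw [zpow_natCast]
        exact mul_inv_eq_one.mp h1
      · have e : x * (r ^ (k + 1))⁻¹ = x * (r ^ k)⁻¹ * r⁻¹ := by
          rw [pow_succ', mul_inv_rev, mul_assoc]
        rw [e]
        exact h1
  refine ⟨x * (r ^ k)⁻¹, key, ?_⟩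
  have hc : x * (r ^ k)⁻¹ * r ^ k = r ^ k * (x * (r ^ k)⁻¹) := by
    have e1 := cm_pow (r := r) (k : ℤ)
    rw [zpow_natCast] at e1
    exact h.ab _ _ (nm_comm key) e1
  rw [← hc, inv_mul_cancel_right]

/-- a common bound for finitely many elements -/
theorem bound (h : AxR B b r L) (S : Finset K) : ∃ c, NmR B b r c ∧ ∀ g ∈ S, L g c := by
  classical
  induction S using Finset.induction_on with
  | empty => exact ⟨1, h.n1, fun g hg => absurd hg (Finset.notMem_empty g)⟩
  | insert a S _ ih =>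
    obtain ⟨c, hc, hS⟩ := ih
    obtain ⟨d, hd, hL⟩ := h.l1 a
    refine ⟨c * d, h.nmul _ _ hc hd, ?_⟩
    intro g hg
    rcases Finset.mem_insert.mp hg with rfl | hg
    · rw [h.ab _ _ (nm_comm hc) (nm_comm hd)]
      exact h.l4 _ _ _ hd hc hL
    · exact h.l4 _ _ _ hc hd (hS g hg)

theorem mu_pow (h : AxR B b r L) {c : K} (hc : NmR B b r c) (k : ℕ) :
    MuR B b r c (r ^ k) (c ^ k) := by
  induction k with
  | zero => rw [pow_zero, pow_zero]; exact h.mu1 _ hc
  | succ k ih =>
    rw [pow_succ, pow_succ]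
    exact h.mus _ _ _ hc (nm_pow h h.nr k) (nm_pow h hc k) ih

theorem pow_of_nm (h : AxR B b r L) (hfg : Group.FG K) {x : K} (hx : NmR B b r x) :
    ∃ e : ℤ, x = r ^ e := by
  classical
  by_contra hn
  obtain ⟨S, hS, hfin⟩ := Group.fg_iff.mp hfg
  obtain ⟨c, hc, hL⟩ := bound h (insert 1 hfin.toFinset)
  -- a bound for the powers of `c`
  obtain ⟨z, hz, hzc⟩ : ∃ z, NmR B b r z ∧ ∀ k : ℕ, LeR B b r (c ^ k) z := by
    by_cases hcp : ∃ e : ℤ, c = r ^ e
    · refine ⟨x, hx, ?_⟩
      intro k
      obtain ⟨e, he⟩ := hcp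
      rcases le_or_gt 0 e with h0 | h0
      · obtain ⟨n, hn'⟩ := Int.eq_ofNat_of_zero_le h0
        rw [hn', zpow_natCast] at he
        rw [he, ← pow_mul]
        exact above h hx hn _
      · obtain ⟨n, hn'⟩ := Int.exists_eq_neg_ofNat (le_of_lt h0)
        rw [hn', zpow_neg, zpow_natCast] at he
        have h1 : c = 1 := by
          apply h.pos _ hc
          rw [he, inv_inv]
          exact nm_pow h h.nr n
        rw [h1, one_pow]
        have := above h hx hn 0
        rwa [pow_zero] at this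
    · obtain ⟨z, hz, hb⟩ := h.big c hc
      exact ⟨z, hz, fun k => hb (r ^ k) (c ^ k) (nm_pow h h.nr k) (nm_pow h hc k)
        (above h hc hcp k) (mu_pow h hc k)⟩
  -- all elements have length below a power of `c`
  have hall : ∀ g : K, ∃ k : ℕ, L g (c ^ k) := by
    intro g
    have hg : g ∈ Subgroup.closure S := by
      rw [hS]
      exact Subgroup.mem_top g
    induction hg using Subgroup.closure_induction with
    | mem g hg =>
      refine ⟨1, ?_⟩
      rw [pow_one]
      exact hL g (Finset.mem_insert_of_mem (hfin.mem_toFinset.mpr hg))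
    | one =>
      refine ⟨1, ?_⟩
      rw [pow_one]
      exact hL 1 (Finset.mem_insert_self _ _)
    | mul g g' _ _ ih ih' =>
      obtain ⟨k, hk⟩ := ih
      obtain ⟨l, hl⟩ := ih'
      refine ⟨k + l, ?_⟩
      rw [pow_add]
      exact h.l2 _ _ _ _ (nm_pow h hc k) (nm_pow h hc l) hk hl
    | inv g _ ih =>
      obtain ⟨k, hk⟩ := ih
      exact ⟨k, h.l3 _ _ (nm_pow h hc k) hk⟩
  obtain ⟨g, hg⟩ := h.l5 z hz
  apply hg
  obtain ⟨k, hk⟩ := hall g
  obtain ⟨t, ht, e⟩ := hzc k
  rw [← e]
  exact h.l4 _ _ _ (nm_pow h hc k) ht hk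

theorem sq_pow (h : AxR B b r L) (t : ℕ) : SqR B b r (r ^ t) (r ^ (t ^ 2)) := by
  induction t with
  | zero => simpa using h.sq0
  | succ t ih =>
    have e := h.sqs _ _ ih
    have e1 : r ^ (t ^ 2) * r ^ t * r ^ t * r = r ^ ((t + 1) ^ 2) := by
      rw [← pow_add, ← pow_add, ← pow_succ]
      congr 1
      ring
    rw [e1, ← pow_succ] at e
    exact e

end

theorem axstd : S_axstd := by
  intro B K _ hfg b r L h
  refine ⟨?_, inj_int h, ?_⟩
  · intro y
    constructor
    · intro hy
      rcases h.tot y hy with h1 | h1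
      · exact pow_of_nm h hfg h1
      · obtain ⟨e, he⟩ := pow_of_nm h hfg h1
        refine ⟨-e, ?_⟩
        rw [zpow_neg, ← he, inv_inv]
    · rintro ⟨e, rfl⟩
      exact cm_pow e
  · intro i j
    constructor
    · intro hs
      have h0 : 0 ≤ i := by
        by_contra hneg
        push Not at hneg
        obtain ⟨n, hn⟩ := Int.exists_eq_neg_ofNat (le_of_lt hneg)
        have h1 : NmR B b r (r ^ i) := ⟨_, hs⟩
        have h2 : r ^ i = 1 := by
          apply h.pos _ h1
          rw [hn, zpow_neg, inv_inv, zpow_natCast]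
          exact nm_pow h h.nr n
        have := inj_int h i h2
        omega
      obtain ⟨t, ht⟩ := Int.eq_ofNat_of_zero_le h0
      refine ⟨t, ht, ?_⟩
      rw [ht, zpow_natCast] at hs
      have e := h.fn _ _ _ hs (sq_pow h t)
      have e1 : r ^ (j - (t : ℤ) ^ 2) = 1 := by
        rw [zpow_sub, e, ← zpow_natCast, Nat.cast_pow, mul_inv_cancel]
      have := inj_int h _ e1
      omega
    · rintro ⟨t, rfl, rfl⟩
      have e := sq_pow h t
      rw [← zpow_natCast, ← zpow_natCast, Nat.cast_pow] at e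
      exact e

end Pool.Agent.H722.QF
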